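import Pool.Agent.TH984.FC.Neg
import Pool.Agent.TH984.FC.Golden2

/-! MP_207c40_pr, Q1, negative answer: a two-state stationary ergodic Markov chain with
return times at most two (hence exponential) that is not a finitary factor, with
exponentially tailed coding window, of any iid process of the same entropy. -/

set_option autoImplicit false

open MeasureTheory ProbabilityTheory
open Pool.Agent.Helper179.KS
open Pool.Agent.TH984.FC

namespace Pool.Agent.Results.MP_207c40_pr.EntropyEqualCodingFails

/-- There is a stationary ergodic Markov chain with two states and exponential return times such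
that no iid process (on any standard Borel alphabet) with the same Kolmogorov-Sinai entropy admits
a factor map onto the chain that is finitary with an exponentially tailed coding window. -/
theorem result.{u} :
    ∃ (P : Matrix Bool Bool ℝ) (p : Bool → ℝ) (μ : Measure (ℤ → Bool)),
      IsErgodicChain P p ∧ IsMarkovLaw P p μ ∧ ExpReturnTimes μ ∧
      ∀ (A : Type u) [MeasurableSpace A] [StandardBorelSpace A] (q : Measure A)
        [IsProbabilityMeasure q],
        ksEntropy (iid q) shift = ksEntropy μ shift →
          ¬ ∃ φ : (ℤ → A) → (ℤ → Bool), IsFactorMap (iid q) μ φ ∧ ExpCodingWindow (iid q) φ := by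
  refine ⟨Golden.P, Golden.p, Golden.mu, Golden.isErgodicChain, Golden.isMarkovLaw,
    Golden.expReturnTimes, ?_⟩
  intro A _ _ q _ hent
  rintro ⟨φ, hφ, hwin⟩
  have h0 := Golden.g_pos
  have h1 := Golden.one_lt_g
  have hH : ∀ (k : ℕ) (κ : A → Fin k), Measurable κ → shannonEntropy q κ ≤ Real.log Golden.g := by
    intro k κ hκ
    have h2 := shannon_le_ks q hκ
    rw [hent] at h2
    exact_mod_cast h2.trans Golden.ks_mu_le
  have hae := atom_mass q Golden.mu φ hφ hwin (C0 := Golden.g ^ 2) (h := Real.log Golden.g)
    (by nlinarith) (Real.log_pos h1) Golden.mu_cyl hH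
  rw [Real.exp_neg, Real.exp_log h0] at hae
  obtain ⟨a, ha⟩ := hae.exists
  have hlt : Golden.g⁻¹ < 1 := inv_lt_one_of_one_lt₀ h1
  -- the complement of `a` has positive mass, hence contains another atom
  have hcomp : q {a}ᶜ ≠ 0 := by
    intro h3
    have h4 : q.real {a}ᶜ = 0 := by rw [Measure.real, h3, ENNReal.toReal_zero]
    have h5 : q.real {a} + q.real {a}ᶜ = 1 := by
      rw [measureReal_add_measureReal_compl (measurableSet_singleton a)]
      simp
    rw [h4, add_zero, ha] at h5
    linarith
  have hex : ∃ b ∈ ({a}ᶜ : Set A), q.real {b} = Golden.g⁻¹ := by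
    by_contra hcon
    push Not at hcon
    refine hcomp (measure_mono_null (fun b hb => ?_) (ae_iff.1 hae))
    exact hcon b hb
  obtain ⟨b, hb, hbm⟩ := hex
  have hab : a ≠ b := fun h => hb (by simp [h])
  have h6 : q.real {a} + q.real {b} ≤ 1 := by
    rw [← measureReal_union (by simpa using hab) (measurableSet_singleton b)]
    exact measureReal_le_one
  rw [ha, hbm] at h6
  have h7 : Golden.g < 2 := by
    have := Golden.g_sq
    nlinarith
  have h8 : 1 / 2 < Golden.g⁻¹ := by
    rw [one_div, inv_lt_inv₀ two_pos h0]
    exact h7
  linarith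

end Pool.Agent.Results.MP_207c40_pr.EntropyEqualCodingFails
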